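import Pool.Agent.SM3.P_FIN4
import Pool.Agent.SM2.Named

/-!
# MP_e40716_gt (T*): the condition and the conclusions in degree `0`
-/

set_option autoImplicit false
set_option linter.unusedSectionVars false

open Matrix Pool.Agent.Lib25 Pool.Agent.KM Pool.Agent.SM1 Pool.Agent.SM2
open Pool.Agent.SUR (ZM)

noncomputable section

namespace Pool.Agent.SM3

universe u v w

/-- For all `z ∈ K₀(ℤ[G])` a positive multiple of the image of `z` in `K_{-1}(ℤ[Q])` is in `finF π f`. -/
def K0Seen {G : Type u} [Group G] {Q : Type v} [Group Q] (π : G →* Q) (f : G →* Multiplicative ℤ) :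
    Prop :=
  ∀ z : K0 (MonoidAlgebra ℤ G), ∃ n : ℕ, 0 < n ∧ n • Kg π (ddf f z) ∈ finF π f

/-- For every `z ∈ K₀(ℤ[G])` there is an `M > 0` such that for all finite groups `Q` of order prime to `M`,
all `π : G → Q` and all `f : G → ℤ` a positive multiple of the image of `z` in `K_{-1}(ℤ[Q])` is in
`finF π f`. -/
def K0SeenPrime (G : Type u) [Group G] : Prop :=
  ∀ z : K0 (MonoidAlgebra ℤ G), ∃ M : ℕ, 0 < M ∧ ∀ (Q : Type v) [Group Q] [Finite Q]
    (π : G →* Q) (f : G →* Multiplicative ℤ), M.Coprime (Nat.card Q) →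
      ∃ n : ℕ, 0 < n ∧ n • Kg π (ddf f z) ∈ finF π f

/-- `CE` for all elements of infinite order, with one finitely generated subring of a field and one
`n`. -/
def CEulA {G : Type u} [Group G] {Q : Type v} [Group Q] (π : G →* Q) : Prop :=
  ∃ (F : Type u) (_ : Field F) (S : Set F) (n : ℕ), S.Finite ∧ 0 < n ∧
    ∀ g : G, ¬IsOfFinOrder g → CE (Subring.closure S) n (orderOf (π g)) g

theorem addH_zero {F : Type u} [Ring F] {A : Subring F} (h : AddH A 0) (N : ℕ) : AddH A N := by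
  intro a ha
  obtain ⟨M, ψ, hM, hM0, hψ⟩ := h a ha
  have h1 : M = 1 := Nat.coprime_zero_right M |>.1 hM0
  exact ⟨M, ψ, hM, by rw [h1]; exact Nat.coprime_one_left N, hψ⟩

/-- The condition for an injective homomorphism. -/
theorem ceula_of_inj {G : Type u} [Group G] {P : Type v} [Group P] (i : G →* P)
    (hi : Function.Injective i) (h : CEul i) {Q : Type w} [Group Q] (π : G →* Q) : CEulA π := by
  obtain ⟨F, hF, S, n, hS, hn, hG⟩ := h
  refine ⟨F, hF, S, n, hS, hn, fun g hg => ?_⟩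
  have h1 := hG g (fun g' hg' => by rw [hi hg']; exact hg)
  have h2 : orderOf (i g) = 0 := by
    rw [orderOf_injective i hi g]
    exact orderOf_eq_zero hg
  rw [h2] at h1
  exact ⟨fun hc => addH_zero (h1.1 hc) _, h1.2⟩

theorem ceul_of_ceula {G : Type u} [Group G] {Q : Type v} [Group Q] (π : G →* Q) (h : CEulA π) :
    CEul π := by
  obtain ⟨F, hF, S, n, hS, hn, hG⟩ := h
  exact ⟨F, hF, S, n, hS, hn, fun g hg => hG g (hg g rfl)⟩

theorem zw4_of_ceula {G : Type u} [Group G] {Q : Type v} [Group Q] (π : G →* Q)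
    (f : G →* Multiplicative ℤ) (h : CEulA π) : ∃ r : ℕ, ZW4 π f r := by
  obtain ⟨F, _, S, n, hS, hn, hG⟩ := h
  refine ⟨n * n + n + 2, fun g hg => ?_⟩
  by_cases hfin : IsOfFinOrder g
  · right
    intro c hc
    by_contra hfc
    exact hg ⟨g, c, hfin, hc, hfc, rfl⟩
  · left
    exact all_REP F S hS n (orderOf (π g)) hn g (hG g hfin)

/-- The condition for the identity of `G` implies the condition for all homomorphisms. -/
theorem lce_of_id {G : Type u} [Group G] (h : LCE (MonoidHom.id G)) {Q : Type v} [Group Q]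
    (π : G →* Q) : LCE π := by
  intro G0 hG0
  obtain ⟨G1, hle, h1⟩ := h G0 hG0
  exact ⟨G1, hle, ceul_of_ceula _ (ceula_of_inj _ G1.subtype_injective h1 _)⟩

theorem lz4_of_id {G : Type u} [Group G] (h : LCE (MonoidHom.id G)) {Q : Type v} [Group Q]
    (π : G →* Q) (f : G →* Multiplicative ℤ) : LZ4 π f := by
  intro G0 hG0
  obtain ⟨G1, hle, h1⟩ := h G0 hG0
  exact ⟨G1, hle, zw4_of_ceula _ _ (ceula_of_inj _ G1.subtype_injective h1 _)⟩

/-- Subgroups of linear groups: the condition for all homomorphisms to groups of order prime to `M`. -/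
theorem ceula_linear (F : Type u) [Field F] (n : ℕ) (G : Subgroup (GL (Fin n) F)) (G0 : Subgroup G)
    (hG0 : G0.FG) : ∃ M : ℕ, 0 < M ∧ ∀ (Q : Type v) [Group Q] [Finite Q] (π : G0 →* Q),
      M.Coprime (Nat.card Q) → CEulA π := by
  obtain ⟨S, hS, -, hρ⟩ := t_LNR F n ⊤ G (fun _ _ _ _ => Subring.mem_top _) G0 hG0
  have key : ∀ {Q : Type v} [Group Q] (π : G0 →* Q),
      (CharZero F → ∀ g : G0, AddH (Subring.closure S) (orderOf (π g))) → CEulA π := by
    intro Q _ π hA
    rcases Nat.eq_zero_or_pos n with hn | hn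
    · subst hn
      refine ⟨F, inferInstance, S, 1, hS, one_pos, fun g hg => ?_⟩
      obtain ⟨ρ, h1⟩ := hρ g hg
      exact absurd (by rw [Subsingleton.elim (ρ (cel g)) 1]; exact IsOfFinOrder.one) h1
    · exact ⟨F, inferInstance, S, n, hS, hn, fun g hg => ⟨fun h => hA h g, Or.inl (hρ g hg)⟩⟩
  by_cases hF : CharZero F
  · obtain ⟨M, hM, hψ⟩ := Pool.Agent.SUR.t_NNF F S hS
    refine ⟨M, hM, fun Q _ _ π hQ => key π fun _ g a ha => ?_⟩
    obtain ⟨ψ, h1⟩ := hψ a.1 a.2 (fun h => ha (Subtype.ext h))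
    exact ⟨M, ψ, hM, hQ.coprime_dvd_right (orderOf_dvd_natCard _), h1 a.2⟩
  · exact ⟨1, one_pos, fun Q _ _ π _ => key π fun h => absurd h hF⟩

end Pool.Agent.SM3
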