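import Pool.Agent.SM3.St
import Pool.Agent.SM1.P_COL

/-!
# SM3: every element of `K₀(ℤ[G])` comes from a finitely generated subgroup
-/

set_option autoImplicit false
set_option linter.unusedSectionVars false

open Matrix Pool.Agent.Lib25 Pool.Agent.KM Pool.Agent.SM1 Pool.Agent.SM2

noncomputable section

namespace Pool.Agent.SM3

universe u v w

namespace COL0

variable {G : Type u} [Group G]

/-- The support of a matrix. -/
theorem exists_supp {n : ℕ} (e : Matrix (Fin n) (Fin n) (MonoidAlgebra ℤ G)) :
    ∃ S : Finset G, ∀ i j, ∀ g ∈ (e i j).coeff.support, g ∈ S := by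
  classical
  refine ⟨Finset.univ.biUnion fun i => Finset.univ.biUnion fun j => (e i j).coeff.support, ?_⟩
  intro i j g hg
  simp only [Finset.mem_biUnion, Finset.mem_univ, true_and]
  exact ⟨i, j, hg⟩

end COL0

theorem t_COL0 : S_COL0.{u} := by
  intro G _ z
  obtain ⟨n, e, he, m, rfl⟩ := exists_cl z
  obtain ⟨S, hS⟩ := COL0.exists_supp e
  refine ⟨Subgroup.closure (S : Set G), ⟨S, rfl⟩, ?_⟩
  intro G1 hG1
  have h1 : ∀ i j, ∃ y, grm G1.subtype y = e i j := by
    intro i j
    exact COL.lift_grm G1 _ fun g hg => hG1 (Subgroup.subset_closure (hS i j g hg))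
  choose f hf using h1
  have h2 : (Matrix.of f).map (grm G1.subtype) = e := by
    ext1 i j
    exact hf i j
  have h3 : Matrix.of f * Matrix.of f = Matrix.of f := by
    have h4 : Function.Injective
        (fun M : Matrix (Fin n) (Fin n) (MonoidAlgebra ℤ G1) => M.map (grm G1.subtype)) :=
      Matrix.map_injective (COL.grm_injective G1)
    apply h4
    change (Matrix.of f * Matrix.of f).map (grm G1.subtype) =
      (Matrix.of f).map (grm G1.subtype)
    rw [Matrix.map_mul, h2, he]
  refine ⟨cl (Matrix.of f) h3 - one _ m, ?_⟩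
  rw [map_sub, map_one', map_cl]
  congr 1
  exact cl_congr _ _ (by rw [h2]; exact MvN.refl he)

end Pool.Agent.SM3
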