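import Pool.Agent.SM3.St
import Pool.Agent.SM1.P_FNS2

/-!
# SM3, module FNS4: the theorem in degree `0` for surjective homomorphisms
-/

set_option autoImplicit false
set_option linter.unusedSectionVars false
set_option maxHeartbeats 4000000

open Matrix Pool.Agent.Lib25 Pool.Agent.KM Pool.Agent.SM1 Pool.Agent.SM2

noncomputable section

namespace Pool.Agent.SM3

universe u v w

namespace FNS4

theorem exists_bound {G : Type u} {Q : Type v} [Group G] [Group Q] [Finite Q] (π : G →* Q)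
    (f : G →* Multiplicative ℤ) :
    ∃ M : ℕ, 0 < M ∧ ∀ h ∈ TF π f, ∃ g c : G, π g = h ∧ g ^ M = 1 ∧ c * g = g * c ∧ f c ≠ 1 := by
  classical
  have := Fintype.ofFinite Q
  have h1 : ∀ h : Q, ∃ m : ℕ, 0 < m ∧ (h ∈ TF π f →
      ∃ g c : G, π g = h ∧ g ^ m = 1 ∧ c * g = g * c ∧ f c ≠ 1) := by
    intro h
    by_cases hh : h ∈ TF π f
    · obtain ⟨g, c, hg, hc, hfc, hgh⟩ := hh
      obtain ⟨m, hm, hgm⟩ := isOfFinOrder_iff_pow_eq_one.1 hg
      exact ⟨m, hm, fun _ => ⟨g, c, hgh, hgm, hc, hfc⟩⟩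
    · exact ⟨1, one_pos, fun h => absurd h hh⟩
  choose m hm hm' using h1
  refine ⟨∏ h, m h, Finset.prod_pos fun h _ => hm h, fun h hh => ?_⟩
  obtain ⟨g, c, hg, hgm, hc, hfc⟩ := hm' h hh
  refine ⟨g, c, hg, ?_, hc, hfc⟩
  obtain ⟨d, hd⟩ := Finset.dvd_prod_of_mem m (Finset.mem_univ h)
  rw [hd, pow_mul, hgm, one_pow]

/-- The image of `K_{-1}` of a finite cyclic group, on whose centraliser `f` does not vanish. -/
theorem mem_finF {G : Type u} {Q : Type v} [Group G] [Group Q] (π : G →* Q)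
    (f : G →* Multiplicative ℤ) {n : ℕ} [NeZero n] (ψ : Multiplicative (ZMod n) →* G) (c : G)
    (hc : c * ψ (gn n) = ψ (gn n) * c) (hfc : f c ≠ 1)
    (y : KNegOne (MonoidAlgebra ℤ (Multiplicative (ZMod n)))) :
    Kg (π.comp ψ) y ∈ finF π f := by
  have hfin : Finite ψ.range := by
    have : Finite (Multiplicative (ZMod n)) := inferInstance
    exact Set.finite_range ψ |>.to_subtype
  have hcomm : ∀ x ∈ ψ.range, c * x = x * c := by
    rintro _ ⟨a, rfl⟩
    have ha : a = gn n ^ (Multiplicative.toAdd a).val := by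
      change a = (Multiplicative.ofAdd (1 : ZMod n)) ^ (Multiplicative.toAdd a).val
      rw [← ofAdd_nsmul, nsmul_eq_mul, mul_one, ZMod.natCast_zmod_val]
      rfl
    rw [ha, map_pow]
    exact (Commute.pow_right (show Commute c (ψ (gn n)) from hc) _).eq
  have h1 : Kg (π.comp ψ) y = Kg (π.comp ψ.range.subtype) (Kg ψ.rangeRestrict y) := by
    rw [Kg_comp]
    rfl
  rw [h1]
  exact (le_iSup (fun H : {H : Subgroup G // Finite H ∧ ∃ c : G, (∀ x ∈ H, c * x = x * c) ∧ f c ≠ 1} =>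
    (Kg (π.comp H.1.subtype)).range) ⟨ψ.range, hfin, c, hcomm, hfc⟩) ⟨_, rfl⟩

end FNS4

open FNS FNS4 in
theorem t_FNS4 (hNUM : S_NUM4.{u, v}) (hTR2 : S_TR2.{v}) (hGEN : S_GEN2.{v}) (hLPF : S_LPF.{v})
    (hTKA : S_TKA.{v}) : S_FNS4.{u, v} := by
  intro G _ Q _ _ π hπ f r hZ z
  by_contra hcon
  push Not at hcon
  obtain ⟨l, hl0, hl1⟩ := functional (finF π f) (Kg π (ddf f z)) hcon
  obtain ⟨M, hM, hMT⟩ := exists_bound π f
  have hex : ∀ n : ℕ, ∃ (N : ℕ)
      (x : ℕ → K0 (LaurentPolynomial (MonoidAlgebra ℤ (Multiplicative (ZMod n))))), 0 < N ∧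
      ∀ [NeZero n], LocN.{v} n N x := by
    intro n
    by_cases h : n = 0
    · exact ⟨1, 0, one_pos, fun {inst} => absurd h inst.ne⟩
    · have : NeZero n := ⟨h⟩
      obtain ⟨N, x, hN, hx⟩ := hTKA n
      exact ⟨N, x, hN, fun {_} => hx⟩
  choose N' x' hN' hx' using hex
  set N : ℕ → ℕ := fun n => N' (n * M) with hNdef
  set x₀ : ∀ n : ℕ, ℕ → K0 (LaurentPolynomial (MonoidAlgebra ℤ (Multiplicative (ZMod n)))) :=
    fun n p => K0.map (mapL (grm (cN (n * M) n (dvd_mul_right n M)))) (x' (n * M) p) with hx₀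
  have hN : ∀ n, 0 < n → 0 < N n := fun n _ => hN' (n * M)
  have hloc : ∀ (n : ℕ) [NeZero n], LocN.{v} n (N n) (x₀ n) := by
    intro n _
    have : NeZero (n * M) := ⟨Nat.mul_ne_zero (NeZero.ne n) hM.ne'⟩
    exact hLPF n (n * M) (dvd_mul_right n M) (N' (n * M)) (x' (n * M)) (hx' (n * M))
  obtain ⟨hg1, hg2⟩ := hGEN N x₀ hN hloc Q
  obtain ⟨L, hadm, hL⟩ := hg1 l
  obtain ⟨m, hm, c, hc⟩ := hg2 (Kg π (ddf f z))
  have key := hTR2 (G := Q) N x₀ hN hloc L hadm (TF π f) ?_ ?_ ?_ c ?_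
  · have h1 : l (m • Kg π (ddf f z)) = (m : ℚ) := by
      rw [map_nsmul, hl1, nsmul_eq_mul, mul_one]
    have h2 : l (c.sum fun j n => n • Kg j.φ (KNegOne.mk (x₀ j.n j.p))) =
        c.sum fun j m => (m : ℚ) * L j.p (j.φ (gn j.n)) := by
      rw [Finsupp.sum, Finsupp.sum, map_sum]
      refine Finset.sum_congr rfl fun j _ => ?_
      rw [map_zsmul, hL j, zsmul_eq_mul]
    rw [hc, h2, key] at h1
    have h3 : (0 : ℚ) < m := by exact_mod_cast hm
    rw [← h1] at h3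
    exact lt_irrefl _ h3
  · rintro h ⟨g, c', hg, hc', hfc, rfl⟩ k
    obtain ⟨k', rfl⟩ := hπ k
    refine ⟨k' * g * k'⁻¹, k' * c' * k'⁻¹, ?_, ?_, ?_, by rw [map_mul, map_mul, map_inv]⟩
    · exact MonoidHom.isOfFinOrder (MulAut.conj k').toMonoidHom hg
    · have h1 : k' * c' * k'⁻¹ * (k' * g * k'⁻¹) = k' * (c' * g) * k'⁻¹ := by group
      rw [h1, hc']
      group
    · have h1 : f (k' * c' * k'⁻¹) = f c' := by
        rw [map_mul, map_mul, map_inv, mul_comm (f k') (f c'), mul_assoc, mul_inv_cancel, mul_one]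
      rw [h1]
      exact hfc
  · rintro h ⟨g, c', hg, hc', hfc, rfl⟩ n
    exact ⟨g ^ n, c', hg.pow, (Commute.pow_right (show Commute c' g from hc') n).eq, hfc,
      map_pow π g n⟩
  · intro h hh p hp
    obtain ⟨g, c', hgh, hgM, hc', hfc⟩ := hMT h hh
    have hn : 0 < orderOf h := orderOf_pos h
    have : NeZero (orderOf h) := ⟨by omega⟩
    have : NeZero (orderOf h * M) := ⟨Nat.mul_ne_zero hn.ne' hM.ne'⟩
    have hpow : h ^ orderOf h = 1 := pow_orderOf_eq_one h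
    have hinj := ZAD.hmg_inj rfl hpow
    have h1 := hL ⟨orderOf h, p, hn, Nat.prime_of_mem_primeFactors hp,
      Nat.dvd_of_mem_primeFactors hp, ZAD.hmg (orderOf h) h hpow, hinj⟩
    change l (Kg (ZAD.hmg (orderOf h) h hpow) (KNegOne.mk (K0.map (mapL (grm
      (cN (orderOf h * M) (orderOf h) (dvd_mul_right (orderOf h) M)))) (x' (orderOf h * M) p)))) =
      L p (ZAD.hmg (orderOf h) h hpow (gn (orderOf h))) at h1
    rw [ZAD.hmg_gn] at h1
    rw [← h1, ← KNegOne.map_mk]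
    change l (Kg (ZAD.hmg (orderOf h) h hpow) (Kg
      (cN (orderOf h * M) (orderOf h) (dvd_mul_right (orderOf h) M))
      (KNegOne.mk (x' (orderOf h * M) p)))) = 0
    have hgpow : g ^ (orderOf h * M) = 1 := by rw [mul_comm, pow_mul, hgM, one_pow]
    have h2 : (ZAD.hmg (orderOf h) h hpow).comp
        (cN (orderOf h * M) (orderOf h) (dvd_mul_right (orderOf h) M)) =
        π.comp (ZAD.hmg (orderOf h * M) g hgpow) := by
      apply ZAD.hom_ext
      rw [MonoidHom.comp_apply, MonoidHom.comp_apply, ZAD.hmg_gn, hgh]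
      have h3 : cN (orderOf h * M) (orderOf h) (dvd_mul_right (orderOf h) M)
          (gn (orderOf h * M)) = gn (orderOf h) := by
        change Multiplicative.ofAdd (ZMod.castHom (dvd_mul_right (orderOf h) M)
          (ZMod (orderOf h)) (1 : ZMod (orderOf h * M))) = _
        rw [map_one]
      rw [h3, ZAD.hmg_gn]
    rw [Kg_comp, h2]
    refine hl0 _ (mem_finF π f (ZAD.hmg (orderOf h * M) g hgpow) c' ?_ hfc _)
    rw [ZAD.hmg_gn]
    exact hc'
  · intro w hw
    obtain ⟨y, hy⟩ := hNUM π hπ f r hZ z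
      (∑ j ∈ c.support, c j • K0.map (mapL (grm j.φ)) (x₀ j.n j.p)) m (by
        rw [← KNegOne.map_mk]
        change _ = m • Kg π (ddf f z)
        rw [hc, map_sum]
        refine Finset.sum_congr rfl fun j _ => ?_
        rw [map_zsmul]
        change c j • _ = c j • Kg j.φ (KNegOne.mk (x₀ j.n j.p))
        rw [KNegOne.map_mk]) w hw
    exact ⟨y, fun p _ h _ hp hnT => hy p h hp hnT⟩

end Pool.Agent.SM3
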