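import Pool.Agent.SM3.St

/-!
# MP_e40716_gt (T*): module RSF: restriction of `E.map (jf f)`
-/

set_option autoImplicit false
set_option linter.unusedSectionVars false

open Matrix Pool.Agent.Lib25 Pool.Agent.KM Pool.Agent.SM1 Pool.Agent.SM2
open Pool.Agent.SUR (ZM)

noncomputable section

namespace Pool.Agent.SM3

universe u v w

namespace RSF

/-- `t ^ n` -/
def tt (H : Type*) [Group H] (n : ℤ) : LG ℤ H :=
  AddMonoidAlgebra.single n (1 : MonoidAlgebra ℤ H)

theorem single_tt {H : Type*} [Group H] (m n : ℤ) (r : MonoidAlgebra ℤ H) :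
    (AddMonoidAlgebra.single m r : LG ℤ H) * tt H n = AddMonoidAlgebra.single (m + n) r := by
  unfold tt
  rw [AddMonoidAlgebra.single_mul_single, mul_one]

theorem tt_single {H : Type*} [Group H] (m n : ℤ) (r : MonoidAlgebra ℤ H) :
    tt H n * (AddMonoidAlgebra.single m r : LG ℤ H) = AddMonoidAlgebra.single (n + m) r := by
  unfold tt
  rw [AddMonoidAlgebra.single_mul_single, one_mul]

theorem tt_tt {H : Type*} [Group H] (m n : ℤ) : tt H m * tt H n = tt H (m + n) := by
  unfold tt
  rw [AddMonoidAlgebra.single_mul_single, one_mul]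

theorem tt_zero {H : Type*} [Group H] : tt H 0 = 1 := rfl

variable {G : Type u} [Group G] {H : Type u} [Group H] {k : Type v} [Fintype k] [DecidableEq k]

/-- the entry of the restriction of a group element -/
theorem theta_single (φ : H →* G) (s : k → G) (hT : Pool.Agent.SM1.Tr φ s)
    (θ : MonoidAlgebra ℤ G →+* Matrix k k (MonoidAlgebra ℤ H)) (hθ : IsRes φ s θ) (y : G) (c : ℤ)
    (a b : k) : (∃ h : H, y = s a * φ h * (s b)⁻¹ ∧
      θ (MonoidAlgebra.single y c) a b = MonoidAlgebra.single h c) ∨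
      θ (MonoidAlgebra.single y c) a b = 0 := by
  classical
  by_cases hy : ∃ h : H, y = s a * φ h * (s b)⁻¹
  · obtain ⟨h, hh⟩ := hy
    refine Or.inl ⟨h, hh, ?_⟩
    ext h'
    rw [hθ, MonoidAlgebra.coeff_single, MonoidAlgebra.coeff_single, Finsupp.single_apply,
      Finsupp.single_apply]
    by_cases he : h = h'
    · subst he
      rw [if_pos rfl, if_pos hh]
    · rw [if_neg he, if_neg]
      intro h1
      apply he
      have h2 : s a * φ h = s a * φ h' := by
        rw [hh] at h1
        exact mul_right_cancel h1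
      have h3 := hT.1 (a₁ := (a, h)) (a₂ := (a, h')) h2
      exact congrArg Prod.snd h3
  · refine Or.inr ?_
    ext h'
    rw [hθ, MonoidAlgebra.coeff_single, Finsupp.single_apply, if_neg]
    · rfl
    · intro h1
      exact hy ⟨h', h1⟩

/-- the entries -/
theorem entry (φ : H →* G) (s : k → G) (hT : Pool.Agent.SM1.Tr φ s)
    (θ : MonoidAlgebra ℤ G →+* Matrix k k (MonoidAlgebra ℤ H)) (hθ : IsRes φ s θ)
    (f : G →* Multiplicative ℤ) (x : MonoidAlgebra ℤ G) (a b : k) :
    lau θ (jf ℤ f x) a b * tt H (Multiplicative.toAdd (f (s b))) =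
      tt H (Multiplicative.toAdd (f (s a))) * jf ℤ (f.comp φ) (θ x a b) := by
  induction x using MonoidAlgebra.induction_linear with
  | zero =>
    rw [map_zero, map_zero, map_zero, Matrix.zero_apply, Matrix.zero_apply, map_zero, zero_mul,
      mul_zero]
  | add x y hx hy =>
    rw [map_add, map_add, map_add, Matrix.add_apply, Matrix.add_apply, map_add, add_mul, mul_add,
      hx, hy]
  | single y c =>
    rw [jf_single, lau_single, single_tt]
    rcases theta_single φ s hT θ hθ y c a b with ⟨h, h1, h2⟩ | h2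
    · rw [h2, jf_single, tt_single]
      congr 1
      rw [h1, map_mul f, map_mul f, map_inv f, toAdd_mul, toAdd_mul, toAdd_inv]
      change _ = _ + Multiplicative.toAdd (f (φ h))
      ring
    · rw [h2, map_zero, mul_zero]
      exact AddMonoidAlgebra.single_zero _

end RSF

open RSF in
theorem t_RSF : S_RSF.{u, v, w} := by
  intro G _ H _ k _ _ φ s hT θ hθ f ι _ _ E he hf
  refine ngo_congr he hf ?_
  obtain ⟨e, hE⟩ : ∃ e, e = blow (lau θ) (E.map (jf ℤ f)) := ⟨_, rfl⟩
  obtain ⟨g, hG⟩ : ∃ g, g = (blow θ E).map (jf ℤ (f.comp φ)) := ⟨_, rfl⟩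
  rw [← hE, ← hG]
  rw [← hE] at he
  let U : Matrix (ι × k) (ι × k) (LG ℤ H) :=
    Matrix.diagonal fun i => tt H (Multiplicative.toAdd (f (s i.2)))
  let V : Matrix (ι × k) (ι × k) (LG ℤ H) :=
    Matrix.diagonal fun i => tt H (-Multiplicative.toAdd (f (s i.2)))
  have hUV : U * V = 1 := by
    rw [Matrix.diagonal_mul_diagonal, ← Matrix.diagonal_one]
    congr 1
    funext i
    rw [tt_tt, add_neg_cancel, tt_zero]
  have hVU : V * U = 1 := by
    rw [Matrix.diagonal_mul_diagonal, ← Matrix.diagonal_one]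
    congr 1
    funext i
    rw [tt_tt, neg_add_cancel, tt_zero]
  have hc : e * U = U * g := by
    refine Matrix.ext fun i j => ?_
    rw [Matrix.mul_diagonal, Matrix.diagonal_mul, hE, hG]
    exact entry φ s hT θ hθ f (E i.1 j.1) i.2 j.2
  refine ⟨e * U, V * e, ?_, ?_⟩
  · calc e * U * (V * e) = e * (U * V) * e := by simp only [Matrix.mul_assoc]
      _ = e := by rw [hUV, Matrix.mul_one, he]
  · calc V * e * (e * U) = V * (e * e) * U := by simp only [Matrix.mul_assoc]
      _ = V * (e * U) := by rw [he, Matrix.mul_assoc]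
      _ = (V * U) * g := by rw [hc, Matrix.mul_assoc]
      _ = g := by rw [hVU, Matrix.one_mul]

end Pool.Agent.SM3
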