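import Pool.Agent.SM3.St
import Pool.Agent.SM1.P_SUM

/-!
# SM3_SUM4: the numbers of the image in `ℤ[C_N]` are rational, independent of `p` and `K`
-/

set_option autoImplicit false
set_option linter.unusedSectionVars false

open Matrix Pool.Agent.Lib25 Pool.Agent.KM Pool.Agent.SM1 Pool.Agent.SM2
open Pool.Agent.SUR (ZM bil bilHom th Cub altS IK DegV IsWtA WtAtA)

noncomputable section

namespace Pool.Agent.SM3

universe u v w

open Pool.Agent.SM1.SUM

open scoped Classical in
theorem t_SUM4 (hFUG0 : S_FUG.{u, 0, w}) (hFUG : S_FUG.{u, u, w}) (hR2C : S_R2C.{u, w})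
    (hLFT : S_LFT.{u, w}) (hFS2 : S_FS2.{u, w}) (hCHI : S_CHI) (hFCZ : S_FCZ.{u, w}) :
    S_SUM4.{u, w} := by
  intro G _ N hN φ f r hφ ι _ _ E0' hE0'
  obtain ⟨E, hEdef⟩ : ∃ E, E = E0'.map (jf ℤ f) := ⟨_, rfl⟩
  have hE : E * E = E := by rw [hEdef, ← Matrix.map_mul, hE0']
  obtain ⟨X, hX⟩ := hLFT E hE r
  obtain ⟨F1, hF1⟩ := hFS2 X
  obtain ⟨F2, hF2⟩ := hFCZ f E0' hE0'
  rw [← hEdef] at hF2 ⊢
  set F0 : Finset G := F1 ∪ F2 with hF0def
  have hcN' : ∀ (p : ℕ) (hpN : p ∣ N), cN N p hpN (gn N) = Multiplicative.ofAdd 1 := by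
    intro p hpN
    change Multiplicative.ofAdd (ZMod.castHom hpN (ZMod p) 1) = _
    rw [map_one]
  have hne1' : ∀ (p : ℕ), p.Prime → (Multiplicative.ofAdd (1 : ZMod p)) ≠ 1 := by
    intro p hp
    have : Fact p.Prime := ⟨hp⟩
    intro h
    exact one_ne_zero (α := ZMod p) (Multiplicative.ofAdd.injective h)
  -- the integers `D_g`, `a_g`
  have hex : ∀ g : G, ∃ (v a : ℤ), φ g = gn N → (0 < v ∧
      (∀ (p K : ℕ) (hpN : p ∣ N), p.Prime →
        (v : ZMod (p ^ K)) * rg ((cN N p hpN).comp φ) (rd (p ^ K) E) g = (a : ZMod (p ^ K))) ∧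
      ((∀ x ∈ F0, ¬ IsConj x g) → a = 0)) := by
    intro g
    by_cases hg : φ g = gn N
    · rcases hφ g hg with ⟨M, hM, hMN, v, W, hv, hW⟩ | hfg
      swap
      · obtain ⟨a, ha0, ha⟩ := hF2 g hfg
        refine ⟨1, a, fun _ => ⟨one_pos, ?_, ?_⟩⟩
        · intro p K hpN hp
          rw [Int.cast_one, one_mul]
          refine ha hp ((cN N p hpN).comp φ) ?_
          change cN N p hpN (φ g) ≠ 1
          rw [hg, hcN']
          exact hne1' p hp
        · intro hx
          exact ha0 fun x hxF => hx x (Finset.mem_union_right _ hxF)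
      obtain ⟨hc1, hc2, hc3⟩ := hCHI M hM
      obtain ⟨y, m, hm, hym⟩ := hc2 v hv
      obtain ⟨k, a, hka⟩ := hc3 (y * kapM W X)
      refine ⟨((M ^ k * m : ℕ) : ℤ), a, fun _ => ⟨?_, ?_, ?_⟩⟩
      · have : 0 < M ^ k * m := Nat.mul_pos (pow_pos hM k) hm
        exact_mod_cast this
      · intro p K hpN hp
        have hpM : ¬ p ∣ M := by
          intro h
          have h1 : p ∣ Nat.gcd M N := Nat.dvd_gcd h hpN
          rw [hMN] at h1
          exact hp.one_lt.ne' (Nat.dvd_one.1 h1)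
        obtain ⟨χ⟩ := hc1 p hp hpM K
        have hq : ((cN N p hpN).comp φ) g ≠ 1 := by
          change cN N p hpN (φ g) ≠ 1
          rw [hg, hcN']
          exact hne1' p hp
        have h1 := hR2C hp ((cN N p hpN).comp φ) g r χ v W hW hq E X hX hE
        have h2 : ((((M ^ k * m : ℕ) : ℤ)) : ZMod (p ^ K)) = χ ((M : ZM M) ^ k * y) * χ v := by
          rw [← map_mul, mul_assoc, hym, map_mul, map_pow, map_natCast, map_natCast]
          push_cast
          ring
        rw [h2, mul_assoc, h1, ← map_mul, mul_assoc, hka, map_intCast]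
      · intro hx
        have h1 : kapM W X = 0 :=
          hF1 r g v W hW fun x hxF => hx x (Finset.mem_union_left _ hxF)
        rw [h1, mul_zero, mul_zero] at hka
        have h2 : ((a : ZM M) : ℚ) = 0 := by rw [← hka]; rfl
        have h3 : (a : ℚ) = 0 := by
          rw [← h2]
          rfl
        exact_mod_cast h3
    · exact ⟨0, 0, fun h => absurd h hg⟩
  choose v a hva using hex
  set F : Finset (ConjClasses G) :=
    (F0.image ConjClasses.mk).filter (fun C => φ (rep C) = gn N) with hFdef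
  have hout : ∀ C : ConjClasses G, ConjClasses.mk (rep C) = C := mk_rep
  have hF : ∀ C ∈ F, φ (rep C) = gn N := fun C hC => (Finset.mem_filter.1 hC).2
  have hkap : ∀ g : G, φ g = gn N → ConjClasses.mk g ∉ F → a g = 0 := by
    intro g hg hgF
    apply (hva g hg).2.2
    intro x hx hxg
    apply hgF
    rw [hFdef, Finset.mem_filter, Finset.mem_image]
    refine ⟨⟨x, hx, ConjClasses.mk_eq_mk_iff_isConj.2 hxg⟩, ?_⟩
    rw [← hg]
    exact map_conj φ (ConjClasses.mk_eq_mk_iff_isConj.1 (hout _))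
  -- the constants
  set P0 : ℤ := ∏ C ∈ F, v (rep C) with hP0
  have hP0ne : P0 ≠ 0 := Finset.prod_ne_zero_iff.2 fun C hC => ((hva _ (hF C hC)).1).ne'
  set a0 : ℤ := ∑ C ∈ F, (∏ C' ∈ F.erase C, v (rep C')) * a (rep C) with ha0
  refine ⟨(P0 * P0).toNat, P0 * a0, ?_, ?_⟩
  · have : 0 < P0 * P0 := mul_self_pos.2 hP0ne
    omega
  intro p K hp hpN
  have hNe : NeZero p := ⟨hp.ne_zero⟩
  set q : G →* Cy p := (cN N p hpN).comp φ with hq
  have hcN : cN N p hpN (gn N) = Multiplicative.ofAdd 1 := hcN' p hpN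
  have hqg : ∀ g : G, φ g = gn N → q g = Multiplicative.ofAdd 1 := by
    intro g hg
    change cN N p hpN (φ g) = _
    rw [hg, hcN]
  have hrdidem : ∀ K : ℕ, rd (p ^ K) E * rd (p ^ K) E = rd (p ^ K) E := by
    intro K
    rw [← Matrix.map_mul, hE]
  -- the weight identity
  have hR : ∀ (K : ℕ) (g : G), φ g = gn N →
      (v g : ZMod (p ^ K)) * rg q (rd (p ^ K) E) g = ((a g : ℤ) : ZMod (p ^ K)) := by
    intro K g hg
    exact (hva g hg).2.1 p K hpN hp
  -- compatibility
  have hcomp : ∀ (K j : ℕ) (g : G), rg q (rd (p ^ K) E) g =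
      ZMod.castHom (pow_dvd_pow p (Nat.le_add_right K j)) (ZMod (p ^ K))
        (rg q (rd (p ^ (K + j)) E) g) := by
    intro K j g
    set f := ZMod.castHom (pow_dvd_pow p (Nat.le_add_right K j)) (ZMod (p ^ K)) with hf
    have h1 := hFUG (K := K + j) (K' := K) hp f (MonoidHom.id G) q q rfl
      (rd (p ^ (K + j)) E) (hrdidem _)
    have h2 : (rd (p ^ (K + j)) E).map (mapL (cgm f (MonoidHom.id G))) = rd (p ^ K) E := by
      refine Matrix.ext fun i k => ?_
      change mapL _ (mapL _ (E i k)) = mapL _ (E i k)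
      apply lco_ext
      intro n
      rw [lco_mapL, lco_mapL, lco_mapL]
      unfold red
      rw [cgm_comp]
      congr 2
      exact Subsingleton.elim _ _
    rw [h2] at h1
    unfold rg
    rw [h1, tauL, AddMonoidHom.comp_apply, coeffZero_mapL]
    have h3 : (MonoidHom.id G).prodMap (MonoidHom.id (Cy p)) = MonoidHom.id (G × Cy p) := by
      ext x <;> rfl
    rw [h3, tau_cgm_id]
    rfl
  -- vanishing outside `F`
  have hvan : ∀ (K : ℕ) (g : G), φ g = gn N → ConjClasses.mk g ∉ F →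
      rg q (rd (p ^ K) E) g = 0 := by
    intro K g hg hgF
    obtain ⟨j, hj⟩ := divl hp ((hva g hg).1).ne'
    have h1 := hR (K + j) g hg
    rw [hkap g hg hgF, Int.cast_zero] at h1
    obtain ⟨R, hRR⟩ := ZMod.intCast_surjective (rg q (rd (p ^ (K + j)) E) g)
    rw [← hRR, ← Int.cast_mul, ZMod.intCast_zmod_eq_zero_iff_dvd] at h1
    push_cast at h1
    have h2 := hj K R h1
    rw [hcomp K j g, ← hRR, map_intCast, ZMod.intCast_zmod_eq_zero_iff_dvd]
    push_cast
    exact h2
  -- push-forward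
  have hpush : rg (cN N p hpN) (rd (p ^ K) (psh φ E)) (gn N) =
      ∑ C ∈ F, rg q (rd (p ^ K) E) (rep C) := by
    have h1 := hFUG0 (K := K) (K' := K) hp (RingHom.id _) φ q (cN N p hpN) rfl
      (rd (p ^ K) E) (hrdidem K)
    have h2 : (rd (p ^ K) E).map (mapL (cgm (RingHom.id _) φ)) = rd (p ^ K) (psh φ E) := by
      refine Matrix.ext fun i k => ?_
      change mapL _ (mapL _ (E i k)) = mapL _ (mapL _ (E i k))
      apply lco_ext
      intro n
      rw [lco_mapL, lco_mapL, lco_mapL, lco_mapL]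
      have h3 : ∀ x : MonoidAlgebra ℤ G, grm φ x = cgm (RingHom.id ℤ) φ x := by
        intro x
        unfold cgm
        rw [RingHom.comp_apply]
        congr 1
        induction x using MonoidAlgebra.induction_linear with
        | zero => simp
        | add a b ha hb => rw [map_add, ← ha, ← hb]
        | single g a => rw [MonoidAlgebra.mapRingHom_single]; rfl
      unfold red
      rw [h3, cgm_comp, cgm_comp]
      rfl
    rw [h2] at h1
    unfold rg
    rw [h1, tauL, AddMonoidHom.comp_apply, coeffZero_mapL,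
      tau_classes φ (cN N p hpN (gn N)) (coeffZero (OM q (rd (p ^ K) E))) F hF]
    · apply Finset.sum_congr rfl
      intro C hC
      rw [hqg _ (hF C hC), hcN]
      rfl
    · intro g hg hgF
      have h4 := hvan K g hg hgF
      unfold rg at h4
      rw [hqg g hg] at h4
      rw [hcN]
      exact h4
  rw [hpush]
  have h1 : (((P0 * P0).toNat : ℕ) : ZMod (p ^ K)) = ((P0 * P0 : ℤ) : ZMod (p ^ K)) := by
    have h2 : (((P0 * P0).toNat : ℕ) : ℤ) = P0 * P0 := Int.toNat_of_nonneg (mul_self_nonneg P0)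
    conv_rhs => rw [← h2]
    rw [Int.cast_natCast]
  rw [h1, Int.cast_mul, Int.cast_mul, mul_assoc]
  congr 1
  rw [Finset.mul_sum, ha0, Int.cast_sum]
  apply Finset.sum_congr rfl
  intro C hC
  have h3 := hR K _ (hF C hC)
  rw [hP0, ← Finset.mul_prod_erase F _ hC, Int.cast_mul, Int.cast_mul, ← h3]
  ring

end Pool.Agent.SM3
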