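import Pool.Agent.SM3.P_FCZ
import Pool.Agent.SM3.P_RSF
import Pool.Agent.SM3.P_COL0
import Pool.Agent.SM3.P_SUM4
import Pool.Agent.SM3.P_NUM4
import Pool.Agent.SM3.P_FNS4
import Pool.Agent.SM3.Cond

/-!
# MP_e40716_gt (T*): assembly of the proof, and the clauses of the theorem
-/

set_option autoImplicit false

open Matrix Pool.Agent.Lib25 Pool.Agent.KM Pool.Agent.SM1 Pool.Agent.SM2

noncomputable section

namespace Pool.Agent.SM3

universe u v w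

theorem all_FCZ : S_FCZ.{u, w} := t_FCZ all_UNI
theorem all_SUM4 : S_SUM4.{u, w} := t_SUM4 all_FUG all_FUG all_R2C all_LFT t_FS2 t_CHI all_FCZ
theorem all_NUM4 : S_NUM4.{u, v} :=
  t_NUM4 all_SUM4 all_RHO t_RES t_RES t_RCM all_TRV t_TRA t_CWR t_RSF
theorem all_FNS4 : S_FNS4.{u, v} := t_FNS4 all_NUM4 t_TR2 all_GEN2 t_LPF t_TKA

/-- **T***: degree `0`. -/
theorem k_seen {G : Type u} {Q : Type v} [Group G] [Group Q] [Finite Q]
    (h : LCE (MonoidHom.id G)) (π : G →* Q) (f : G →* Multiplicative ℤ) : K0Seen π f :=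
  fun z => t_FIN4 all_FNS4 t_COL0 π f (lz4_of_id h π f) z

/-- The theorem for one homomorphism with `ZW4`. -/
theorem fin_zw4 {G : Type u} [Group G] {Q : Type v} [Group Q] [Finite Q] (π : G →* Q)
    (f : G →* Multiplicative ℤ) (r : ℕ) (hZ : ZW4 π f r) (z : K0 (MonoidAlgebra ℤ G)) :
    ∃ n : ℕ, 0 < n ∧ n • Kg π (ddf f z) ∈ finF π f := by
  obtain ⟨n, hn, hs⟩ := all_FNS4 π.rangeRestrict π.rangeRestrict_surjective f r
    (FIN4.zw4_range _ _ r hZ) z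
  refine ⟨n, hn, ?_⟩
  have h1 := FIN4.finF_range π f ⟨_, hs, rfl⟩
  have h2 : Kg π.range.subtype (n • Kg π.rangeRestrict (ddf f z)) = n • Kg π (ddf f z) := by
    rw [map_nsmul, Kg_comp]
    rfl
  rw [h2] at h1
  exact h1

/-- All linear groups, degree `0`. -/
theorem k_prime {F : Type u} [Field F] {n : ℕ} (G : Subgroup (GL (Fin n) F)) :
    K0SeenPrime.{u, v} G := by
  intro z
  obtain ⟨G0, hG0, h⟩ := t_COL0 z
  obtain ⟨z0, hz0⟩ := h G0 le_rfl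
  obtain ⟨M, hM, hQ⟩ := ceula_linear F n G G0 hG0
  refine ⟨M, hM, fun Q _ _ π f hMQ => ?_⟩
  obtain ⟨r, hZ⟩ := zw4_of_ceula (π.comp G0.subtype) (f.comp G0.subtype)
    (hQ Q (π.comp G0.subtype) hMQ)
  obtain ⟨m, hm, hs⟩ := fin_zw4 (π.comp G0.subtype) (f.comp G0.subtype) r hZ z0
  refine ⟨m, hm, ?_⟩
  have h1 := FIN4.finF_sub π f G0 hs
  have h2 : m • Kg (π.comp G0.subtype) (ddf (f.comp G0.subtype) z0) = m • Kg π (ddf f z) := by
    rw [← hz0, FIN4.ddf_nat, Kg_comp]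
  rw [h2] at h1
  exact h1

end Pool.Agent.SM3
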