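import Pool.Agent.SM2.St2

/-!
# MP_e40716_gt (T*): degree `0` seen in `Q × ℤ`: definitions

* `jf f` : the ring homomorphism `A[G] → A[G][t,t⁻¹]`, `g ↦ g t ^ (f g)`, of a homomorphism
  `f : G → ℤ`.
* `ddf f : K₀(ℤ[G]) → K_{-1}(ℤ[G])` : the class of the image under `jf f`.  This is the composite of
  `K₀(ℤ[G]) → K₀(ℤ[G × ℤ])`, `g ↦ (g, f g)`, and `K₀(ℤ[G][t,t⁻¹]) → K_{-1}(ℤ[G])`.
* `TF π f` : the elements `π γ`, `γ` of finite order, such that `f` does not vanish on the centraliser
  of `γ`.
* `ZW4 π f r` : every `g` with `π g ∉ TF π f` has a weight of degree at most `r` or `f` vanishes on its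
  centraliser.
* `finF π f` : the subgroup of `K_{-1}(ℤ[Q])` generated by the images of the groups `K_{-1}(ℤ[H])`,
  `H ≤ G` finite such that `f` does not vanish on the centraliser of `H`.
-/

set_option autoImplicit false
set_option linter.unusedSectionVars false

open Matrix Pool.Agent.Lib25 Pool.Agent.KM Pool.Agent.SM1 Pool.Agent.SM2
open Pool.Agent.SUR (ZM)

noncomputable section

namespace Pool.Agent.SM3

universe u v w

section Jf

variable (A : Type*) [CommRing A] {G : Type*} [Group G]

/-- `g ↦ g t ^ (f g)` -/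
def jg (f : G →* Multiplicative ℤ) : G →* LG A G where
  toFun g := AddMonoidAlgebra.single (Multiplicative.toAdd (f g)) (MonoidAlgebra.single g (1 : A))
  map_one' := by
    rw [map_one]
    rfl
  map_mul' x y := by
    rw [map_mul, toAdd_mul, AddMonoidAlgebra.single_mul_single, MonoidAlgebra.single_mul_single,
      one_mul]

/-- `A → A[G][t,t⁻¹]` -/
def cA : A →+* LG A G :=
  (LaurentPolynomial.C : MonoidAlgebra A G →+* LG A G).comp MonoidAlgebra.singleOneRingHom

theorem cA_apply (a : A) : cA A (G := G) a =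
    AddMonoidAlgebra.single (0 : ℤ) (MonoidAlgebra.single (1 : G) a) := rfl

/-- The ring homomorphism `A[G] → A[G][t,t⁻¹]`, `g ↦ g t ^ (f g)`. -/
def jf (f : G →* Multiplicative ℤ) : MonoidAlgebra A G →+* LG A G :=
  MonoidAlgebra.liftNCRingHom (cA A) (jg A f) (by
    intro a g
    change cA A a * jg A f g = jg A f g * cA A a
    change _ * AddMonoidAlgebra.single _ (MonoidAlgebra.single g (1 : A)) =
      AddMonoidAlgebra.single _ (MonoidAlgebra.single g (1 : A)) * _
    rw [cA_apply, AddMonoidAlgebra.single_mul_single, AddMonoidAlgebra.single_mul_single,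
      MonoidAlgebra.single_mul_single, MonoidAlgebra.single_mul_single, zero_add, add_zero, one_mul,
      mul_one, mul_one, one_mul])

theorem jf_single (f : G →* Multiplicative ℤ) (g : G) (a : A) :
    jf A f (MonoidAlgebra.single g a) =
      AddMonoidAlgebra.single (Multiplicative.toAdd (f g)) (MonoidAlgebra.single g a) := by
  have h : jf A f (MonoidAlgebra.single g a) = cA A a * jg A f g :=
    MonoidAlgebra.liftNCRingHom_single _ _ _ _ _
  rw [h]
  change _ * AddMonoidAlgebra.single _ (MonoidAlgebra.single g (1 : A)) = _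
  rw [cA_apply, AddMonoidAlgebra.single_mul_single, MonoidAlgebra.single_mul_single, zero_add,
    one_mul, mul_one]

end Jf

/-- `K₀(ℤ[G]) → K_{-1}(ℤ[G])`. -/
def ddf {G : Type u} [Group G] (f : G →* Multiplicative ℤ) :
    K0 (MonoidAlgebra ℤ G) →+ KNegOne (MonoidAlgebra ℤ G) :=
  KNegOne.mk.comp (K0.map (jf ℤ f))

/-- The elements `π γ`, `γ` of finite order, such that `f` does not vanish on the centraliser of `γ`. -/
def TF {G : Type u} [Group G] {Q : Type v} [Group Q] (π : G →* Q) (f : G →* Multiplicative ℤ) : Set Q :=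
  {h | ∃ g c : G, IsOfFinOrder g ∧ c * g = g * c ∧ f c ≠ 1 ∧ π g = h}

/-- Every `g` with `π g ∉ TF π f` has a weight of degree at most `r` in its centraliser, with values in
`ℤ[1/M]`, `M` prime to the order of `π g`, or `f` vanishes on its centraliser. -/
def ZW4 {G : Type u} [Group G] {Q : Type v} [Group Q] (π : G →* Q) (f : G →* Multiplicative ℤ) (r : ℕ) :
    Prop :=
  ∀ g : G, π g ∉ TF π f →
    (∃ M : ℕ, 0 < M ∧ M.Coprime (orderOf (π g)) ∧ CW M r (cel g)) ∨ ∀ c : G, c * g = g * c → f c = 1

/-- The subgroup of `K_{-1}(ℤ[Q])` generated by the images of the groups `K_{-1}(ℤ[H])`, `H ≤ G` finite such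
that `f` does not vanish on the centraliser of `H`. -/
def finF {G : Type u} [Group G] {Q : Type v} [Group Q] (π : G →* Q) (f : G →* Multiplicative ℤ) :
    AddSubgroup (KNegOne (MonoidAlgebra ℤ Q)) :=
  ⨆ H : {H : Subgroup G // Finite H ∧ ∃ c : G, (∀ x ∈ H, c * x = x * c) ∧ f c ≠ 1},
    (Kg (π.comp H.1.subtype)).range

end Pool.Agent.SM3
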