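import Pool.Agent.SM3.All

/-!
# MP_e40716_gt: the condition `LCN` and the clauses of the theorem in degrees `-1` and `0`
-/

set_option autoImplicit false
set_option linter.unusedSectionVars false

open Matrix Pool.Agent.Lib25 Pool.Agent.KM Pool.Agent.SM1 Pool.Agent.SM2
open Pool.Agent.SUR (ZM)

noncomputable section

namespace Pool.Agent.SM3

universe u v w

/-- The condition on the group `G` and the number `N`: every finitely generated subgroup of `G` is
contained in a subgroup `G1` for which there are a finitely generated subring `A` of a field `F` and an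
`n > 0` such that `CE A n N g` holds for all `g ∈ G1` of infinite order, that is: if `F` has
characteristic `0`, additive homomorphisms from `A` to rings `ℤ[1/M]`, `M` prime to `N`, detect the nonzero
elements of `A`; and either (a) the centraliser `Z` of `g` in `G1` has a homomorphism to `GL_n(A)` which
maps `g` to an element of infinite order, or (b) `F` has characteristic `0` and for some power `g ^ j`,
`j > 0`, and some `s : Z → A` and `v ≠ 0` with `s (g ^ j z) = s z + v`, the `n`-th cup power of the Euler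
cocycle of `s` is the coboundary of a homogeneous cochain on `Z/⟨g ^ j⟩` with values in `A`. -/
def LCN (N : ℕ) (G : Type u) [Group G] : Prop :=
  ∀ G0 : Subgroup G, G0.FG → ∃ G1 : Subgroup G, G0 ≤ G1 ∧
    ∃ (F : Type u) (_ : Field F) (S : Set F) (n : ℕ), S.Finite ∧ 0 < n ∧
      ∀ g : G1, ¬IsOfFinOrder g → CE (Subring.closure S) n N g

theorem addH_dvd {F : Type u} [Ring F] {A : Subring F} {N N' : ℕ} (hN : N' ∣ N) (h : AddH A N) :
    AddH A N' := by
  intro a ha
  obtain ⟨M, ψ, hM, hMN, hψ⟩ := h a ha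
  exact ⟨M, ψ, hM, hMN.coprime_dvd_right hN, hψ⟩

theorem ceula_of_lcn {G : Type u} [Group G] {Q : Type v} [Group Q] [Finite Q]
    (h : LCN (Nat.card Q) G) (π : G →* Q) (G0 : Subgroup G) (hG0 : G0.FG) :
    ∃ G1 : Subgroup G, G0 ≤ G1 ∧ CEulA (π.comp G1.subtype) := by
  obtain ⟨G1, hle, F, hF, S, n, hS, hn, hG⟩ := h G0 hG0
  refine ⟨G1, hle, F, hF, S, n, hS, hn, fun g hg => ?_⟩
  have h1 := hG g hg
  exact ⟨fun hc => addH_dvd (orderOf_dvd_natCard _) (h1.1 hc), h1.2⟩

/-- Degree `-1`. -/
theorem s_neg {G : Type u} [Group G] {Q : Type v} [Group Q] [Finite Q] (h : LCN (Nat.card Q) G)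
    (π : G →* Q) : SurjSeen π := by
  refine m_surj π fun G0 hG0 => ?_
  obtain ⟨G1, hle, h1⟩ := ceula_of_lcn h π G0 hG0
  exact ⟨G1, hle, ceul_of_ceula _ h1⟩

/-- Degree `0`. -/
theorem s_zero {G : Type u} [Group G] {Q : Type v} [Group Q] [Finite Q] (h : LCN (Nat.card Q) G)
    (π : G →* Q) (f : G →* Multiplicative ℤ) : K0Seen π f := by
  refine fun z => t_FIN4 all_FNS4 t_COL0 π f (fun G0 hG0 => ?_) z
  obtain ⟨G1, hle, h1⟩ := ceula_of_lcn h π G0 hG0
  exact ⟨G1, hle, zw4_of_ceula _ _ h1⟩

theorem lcn_of_id {G : Type u} [Group G] (h : LCE (MonoidHom.id G)) (N : ℕ) : LCN N G := by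
  intro G0 hG0
  obtain ⟨G1, hle, F, hF, S, n, hS, hn, hG⟩ := h G0 hG0
  refine ⟨G1, hle, F, hF, S, n, hS, hn, fun g hg => ?_⟩
  have hi : Function.Injective ((MonoidHom.id G).comp G1.subtype) := G1.subtype_injective
  have h1 := hG g (fun g' hg' => by rw [hi hg']; exact hg)
  have h2 : orderOf (((MonoidHom.id G).comp G1.subtype) g) = 0 := by
    rw [orderOf_injective _ hi g]
    exact orderOf_eq_zero hg
  rw [h2] at h1
  exact ⟨fun hc => addH_zero (h1.1 hc) _, h1.2⟩

/-- Subgroups of `GL_n(ℤ[t_i, i ∈ σ])`. -/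
theorem lcn_poly (N : ℕ) (σ : Type u) (n : ℕ) (G : Subgroup (GL (Fin n) (MvPolynomial σ ℤ))) :
    LCN N G := lcn_of_id (lce_poly σ n G (MonoidHom.id G)) N

/-- Linear groups in positive characteristic, or all of whose unipotent elements have finite order. -/
theorem lcn_unip (N : ℕ) {F : Type u} [Field F] {n : ℕ} (G : Subgroup (GL (Fin n) F))
    (h : TorsUnip G) : LCN N G := lcn_of_id (lce_of_lz _ (n_linear G h (MonoidHom.id G))) N

/-- Groups with homomorphisms from centralisers to `ℤ`. -/
theorem lcn_lz (N : ℕ) {G : Type u} [Group G] (h : LZ (MonoidHom.id G)) : LCN N G :=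
  lcn_of_id (lce_of_lz _ h) N

end Pool.Agent.SM3
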