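import Pool.Agent.SM3.St
import Pool.Agent.SM1.St

/-!
# SM3: the invariant of the image under `jf f` at a class on whose centraliser `f` vanishes
-/

set_option autoImplicit false
set_option linter.unusedSectionVars false

open Matrix Pool.Agent.Lib25 Pool.Agent.KM Pool.Agent.SM1 Pool.Agent.SM2
open Pool.Agent.SUR (ZM)

noncomputable section

namespace Pool.Agent.SM3

universe u v w

namespace FCZ

section Fun

variable {Γ : Type*} [Group Γ]

/-- The function on the conjugacy class of `γ` defined by `f`. -/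
theorem exists_fun (f : Γ →* Multiplicative ℤ) (γ : Γ) (hf : ∀ c : Γ, c * γ = γ * c → f c = 1) :
    ∃ h : Γ → ℤ, (∀ w, h (w * γ * w⁻¹) = Multiplicative.toAdd (f w)) ∧
      ∀ x, ¬ IsConj x γ → h x = 0 := by
  classical
  refine ⟨fun x => if H : ∃ w, w * γ * w⁻¹ = x then Multiplicative.toAdd (f H.choose) else 0, ?_, ?_⟩
  · intro w
    have H : ∃ w', w' * γ * w'⁻¹ = w * γ * w⁻¹ := ⟨w, rfl⟩
    have h1 := H.choose_spec
    change (if H : ∃ w', w' * γ * w'⁻¹ = w * γ * w⁻¹ then Multiplicative.toAdd (f H.choose) else 0) = _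
    rw [dif_pos H]
    have h2 : f (w⁻¹ * H.choose) = 1 := by
      apply hf
      calc w⁻¹ * H.choose * γ = w⁻¹ * (H.choose * γ * H.choose⁻¹) * H.choose := by group
        _ = w⁻¹ * (w * γ * w⁻¹) * H.choose := by rw [h1]
        _ = γ * (w⁻¹ * H.choose) := by group
    rw [map_mul, map_inv] at h2
    rw [inv_mul_eq_one.1 h2]
  · intro x hx
    apply dif_neg
    rintro ⟨w, hw⟩
    apply hx
    exact (isConj_iff.2 ⟨w, hw⟩).symm

theorem diff_fun (f : Γ →* Multiplicative ℤ) (γ : Γ) (h : Γ → ℤ)
    (h1 : ∀ w, h (w * γ * w⁻¹) = Multiplicative.toAdd (f w)) (h2 : ∀ x, ¬ IsConj x γ → h x = 0)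
    (u v : Γ) [Decidable (IsConj (u * v) γ)] :
    h (u * v) - h (v * u) = if IsConj (u * v) γ then Multiplicative.toAdd (f u) else 0 := by
  have hc : IsConj (u * v) (v * u) := isConj_iff.2 ⟨u⁻¹, by group⟩
  by_cases H : IsConj (u * v) γ
  · rw [if_pos H]
    obtain ⟨w, hw⟩ := isConj_iff.1 H.symm
    have h3 : v * u = (u⁻¹ * w) * γ * (u⁻¹ * w)⁻¹ := by
      calc v * u = u⁻¹ * (u * v) * u := by group
        _ = u⁻¹ * (w * γ * w⁻¹) * u := by rw [hw]
        _ = _ := by group
    rw [h3, h1, ← hw, h1, map_mul, map_inv, toAdd_mul, toAdd_inv]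
    ring
  · rw [if_neg H, h2 _ H, h2 _ (fun H' => H (hc.trans H')), sub_zero]

theorem const_fun (f : Γ →* Multiplicative ℤ) {γ x : Γ} (h : IsConj x γ) : f x = f γ := by
  obtain ⟨w, hw⟩ := isConj_iff.1 h
  rw [← hw, map_mul, map_mul, map_inv]
  rw [mul_comm (f w) (f x), mul_assoc, mul_inv_cancel, mul_one]

end Fun

section Phi

variable {A : Type*} [CommRing A] {Γ : Type*} [Group Γ]

/-- The additive map `b x ↦ b h(x)`. -/
def Phi (A : Type*) [CommRing A] (h : Γ → ℤ) : MonoidAlgebra A Γ →+ A :=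
  (Finsupp.liftAddHom (fun x : Γ => AddMonoidHom.mulRight ((h x : ℤ) : A))).comp
    (MonoidAlgebra.coeffAddEquiv (R := A) (M := Γ)).toAddMonoidHom

theorem Phi_single (h : Γ → ℤ) (x : Γ) (b : A) :
    Phi A h (MonoidAlgebra.single x b) = b * (h x : ℤ) := by
  simp only [Phi, AddMonoidHom.comp_apply]
  have : (MonoidAlgebra.coeffAddEquiv (R := A) (M := Γ)).toAddMonoidHom
      (MonoidAlgebra.single x b) = Finsupp.single x b := rfl
  rw [this, Finsupp.liftAddHom_apply_single]
  rfl

theorem Phi_eq_zero (h : Γ → ℤ) (z : MonoidAlgebra A Γ) (hz : ∀ x ∈ z.coeff.support, h x = 0) :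
    Phi A h z = 0 := by
  have h1 : Phi A h z = z.coeff.sum (fun x b => AddMonoidHom.mulRight ((h x : ℤ) : A) b) := rfl
  rw [h1]
  apply Finset.sum_eq_zero
  intro x hx
  change z.coeff x * ((h x : ℤ) : A) = 0
  rw [hz x hx, Int.cast_zero, mul_zero]

end Phi

section Eps

variable (A : Type*) [CommRing A] (Γ : Type*) [Group Γ]

/-- `t ↦ 1` -/
def eps : LG A Γ →+* MonoidAlgebra A Γ :=
  AddMonoidAlgebra.liftNCRingHom (RingHom.id (MonoidAlgebra A Γ)) 1
    (fun _ _ => Commute.one_right _)

variable {A Γ}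

theorem eps_single (n : ℤ) (x : MonoidAlgebra A Γ) :
    eps A Γ (AddMonoidAlgebra.single n x : LG A Γ) = x := by
  have h : eps A Γ (AddMonoidAlgebra.single n x : LG A Γ) = x * 1 :=
    AddMonoidAlgebra.liftNCRingHom_single _ _ _ _ _
  rw [h, mul_one]

theorem eps_jf (f : Γ →* Multiplicative ℤ) (x : MonoidAlgebra A Γ) : eps A Γ (jf A f x) = x := by
  induction x using MonoidAlgebra.induction_linear with
  | zero => simp
  | add a b ha hb => rw [map_add, map_add, ha, hb]
  | single g a => rw [jf_single, eps_single]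

/-- `x ↦ f(x) x` -/
def del (f : Γ →* Multiplicative ℤ) : MonoidAlgebra A Γ →+ MonoidAlgebra A Γ :=
  ((eps A Γ).toAddMonoidHom.comp DL).comp (jf A f).toAddMonoidHom

theorem del_single (f : Γ →* Multiplicative ℤ) (g : Γ) (a : A) :
    del f (MonoidAlgebra.single g a) =
      (Multiplicative.toAdd (f g)) • MonoidAlgebra.single g a := by
  change eps A Γ (DL (jf A f (MonoidAlgebra.single g a))) = _
  rw [jf_single, DL_single, eps_single]

theorem DL_jf (f : Γ →* Multiplicative ℤ) (x : MonoidAlgebra A Γ) :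
    DL (jf A f x) = jf A f (del f x) := by
  induction x using MonoidAlgebra.induction_linear with
  | zero => simp
  | add a b ha hb => rw [map_add, map_add, map_add, map_add, ha, hb]
  | single g a =>
    rw [del_single, map_zsmul, jf_single, DL_single, ← AddMonoidAlgebra.smul_single]

theorem tauL_jf (f : Γ →* Multiplicative ℤ) (γ : Γ) (hγ : f γ = 1) (x : MonoidAlgebra A Γ) :
    tauL γ (jf A f x) = tau γ x := by
  induction x using MonoidAlgebra.induction_linear with
  | zero => simp
  | add a b ha hb => rw [map_add, map_add, map_add, ha, hb]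
  | single g a =>
    rw [jf_single]
    change tau γ (coeffZero _) = _
    rw [coeffZero_single]
    by_cases h : Multiplicative.toAdd (f g) = 0
    · rw [if_pos h]
    · rw [if_neg h, map_zero, tau_single, if_neg]
      intro hc
      apply h
      rw [const_fun f hc, hγ]
      rfl

theorem tau_del (f : Γ →* Multiplicative ℤ) (γ : Γ) (h : Γ → ℤ)
    (h1 : ∀ w, h (w * γ * w⁻¹) = Multiplicative.toAdd (f w)) (h2 : ∀ x, ¬ IsConj x γ → h x = 0)
    (x y : MonoidAlgebra A Γ) : tau γ (del f x * y) = Phi A h (x * y) - Phi A h (y * x) := by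
  classical
  induction x using MonoidAlgebra.induction_linear with
  | zero => simp
  | add a b ha hb => rw [map_add, add_mul, add_mul, mul_add, map_add, map_add, map_add, ha, hb]; abel
  | single g a =>
    induction y using MonoidAlgebra.induction_linear with
    | zero => simp
    | add c d hc hd => rw [mul_add, mul_add, add_mul, map_add, map_add, map_add, hc, hd]; abel
    | single g' b =>
      rw [del_single, smul_mul_assoc, MonoidAlgebra.single_mul_single,
        MonoidAlgebra.single_mul_single, map_zsmul, tau_single, Phi_single, Phi_single, mul_comm b a,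
        ← mul_sub, ← Int.cast_sub, diff_fun f γ h h1 h2]
      by_cases H : IsConj (g * g') γ
      · rw [if_pos H, if_pos H, zsmul_eq_mul, mul_comm]
      · rw [if_neg H, if_neg H, smul_zero, Int.cast_zero, mul_zero]

theorem tau_trace_del (f : Γ →* Multiplicative ℤ) (γ : Γ) (h : Γ → ℤ)
    (h1 : ∀ w, h (w * γ * w⁻¹) = Multiplicative.toAdd (f w)) (h2 : ∀ x, ¬ IsConj x γ → h x = 0)
    {ι : Type*} [Fintype ι] (X Y : Matrix ι ι (MonoidAlgebra A Γ)) :
    tau γ (trace (X.map (del f) * Y)) = Phi A h (trace (X * Y)) - Phi A h (trace (Y * X)) := by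
  have e1 : trace (Y * X) = ∑ i, ∑ j, Y j i * X i j := by
    simp only [Matrix.trace, Matrix.diag_apply, Matrix.mul_apply]
    rw [Finset.sum_comm]
  rw [e1]
  simp only [Matrix.trace, Matrix.diag_apply, Matrix.mul_apply, Matrix.map_apply, map_sum,
    ← Finset.sum_sub_distrib]
  refine Finset.sum_congr rfl fun i _ => Finset.sum_congr rfl fun j _ => ?_
  exact tau_del f γ h h1 h2 _ _

end Eps

section Nat

variable {G : Type*} [Group G]

theorem red_jf (n : ℕ) (f : G →* Multiplicative ℤ) (x : MonoidAlgebra ℤ G) :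
    mapL (red n G) (jf ℤ f x) = jf (ZMod n) f (red n G x) := by
  induction x using MonoidAlgebra.induction_linear with
  | zero => simp
  | add a b ha hb => rw [map_add, map_add, map_add, map_add, ha, hb]
  | single g a =>
    rw [jf_single, mapL_single]
    unfold red
    rw [cgm_single, jf_single]
    rfl

variable {A : Type*} [CommRing A]

theorem i0_jf (p : ℕ) (f : G →* Multiplicative ℤ) (x : MonoidAlgebra A G) :
    mapL (i0 A G p) (jf A f x) = jf A (f.comp (MonoidHom.fst G (Cy p))) (i0 A G p x) := by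
  induction x using MonoidAlgebra.induction_linear with
  | zero => simp
  | add a b ha hb => rw [map_add, map_add, map_add, map_add, ha, hb]
  | single g a =>
    rw [jf_single, mapL_single]
    unfold i0
    rw [cgm_single, jf_single]
    rfl

theorem i1_jf {p : ℕ} (q : G →* Cy p) (f : G →* Multiplicative ℤ) (x : MonoidAlgebra A G) :
    mapL (i1 A q) (jf A f x) = jf A (f.comp (MonoidHom.fst G (Cy p))) (i1 A q x) := by
  induction x using MonoidAlgebra.induction_linear with
  | zero => simp
  | add a b ha hb => rw [map_add, map_add, map_add, map_add, ha, hb]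
  | single g a =>
    rw [jf_single, mapL_single]
    unfold i1
    rw [cgm_single, jf_single]
    rfl

theorem Phi_red (n : ℕ) (h : G → ℤ) (x : MonoidAlgebra ℤ G) :
    Phi (ZMod n) h (red n G x) = ((Phi ℤ h x : ℤ) : ZMod n) := by
  induction x using MonoidAlgebra.induction_linear with
  | zero => simp
  | add a b ha hb => rw [map_add, map_add, map_add, ha, hb, Int.cast_add]
  | single g a =>
    unfold red
    rw [cgm_single, Phi_single, Phi_single]
    simp

end Nat

end FCZ

open FCZ in
theorem t_FCZ (hUNI : Pool.Agent.SM1.S_UNI.{u, w}) : S_FCZ.{u, w} := by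
  intro G _ f ι _ _ E hE
  refine ⟨(trace E).coeff.support, ?_⟩
  intro g hg
  obtain ⟨h, hh1, hh2⟩ := exists_fun f g hg
  refine ⟨Phi ℤ h (trace E), ?_, ?_⟩
  · intro hF
    exact Phi_eq_zero h _ fun x hx => hh2 x (hF x hx)
  intro p K hp q hq
  -- the group `P`
  let f' : G × Cy p →* Multiplicative ℤ := f.comp (MonoidHom.fst G (Cy p))
  let γ : G × Cy p := (g, q g)
  have hγ : ∀ c : G × Cy p, c * γ = γ * c → f' c = 1 := by
    intro c hc
    exact hg c.1 (congrArg Prod.fst hc)
  obtain ⟨k, hk1, hk2⟩ := exists_fun f' γ hγ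
  let e : Matrix ι ι (MonoidAlgebra (ZMod (p ^ K)) G) := E.map (red (p ^ K) G)
  let E' : Matrix ι ι (LG (ZMod (p ^ K)) G) := rd (p ^ K) (E.map (jf ℤ f))
  have hE' : E' = e.map (jf (ZMod (p ^ K)) f) := by
    ext1 i j
    exact red_jf (p ^ K) f (E i j)
  have hid : E' * E' = E' := by
    have h1 : E' * E' = ((E * E).map (jf ℤ f)).map (mapL (red (p ^ K) G)) := by
      rw [Matrix.map_mul, Matrix.map_mul]
    rw [h1, hE]
  obtain ⟨-, u1, u2, u3, -⟩ := hUNI hp q E' hid
  let τ : MonoidAlgebra (ZMod (p ^ K)) (G × Cy p) →+* LG (ZMod (p ^ K)) (G × Cy p) :=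
    jf (ZMod (p ^ K)) f'
  let ε := eps (ZMod (p ^ K)) (G × Cy p)
  let e0 := e.map (i0 (ZMod (p ^ K)) G p)
  let e1 := e.map (i1 (ZMod (p ^ K)) q)
  have hE0 : E0 p E' = e0.map τ := by
    rw [hE']
    ext1 i j
    exact i0_jf p f (e i j)
  have hE1 : E1 q E' = e1.map τ := by
    rw [hE']
    ext1 i j
    exact i1_jf q f (e i j)
  let θ := e1 * e0 + (1 - e1) * (1 - e0)
  have hone : (1 : Matrix ι ι (MonoidAlgebra (ZMod (p ^ K)) (G × Cy p))).map τ = 1 :=
    Matrix.map_one _ (map_zero τ) (map_one τ)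
  have hθ : th q E' = θ.map τ := by
    unfold th
    rw [hE0, hE1]
    rw [Matrix.map_add _ (map_add τ), Matrix.map_mul, Matrix.map_mul, Matrix.map_sub _ (map_sub τ),
      Matrix.map_sub _ (map_sub τ), hone]
  have hετ : ∀ X : Matrix ι ι (MonoidAlgebra (ZMod (p ^ K)) (G × Cy p)), (X.map τ).map ε = X := by
    intro X
    ext1 i j
    exact eps_jf f' (X i j)
  have hone' : (1 : Matrix ι ι (LG (ZMod (p ^ K)) (G × Cy p))).map ε = 1 :=
    Matrix.map_one _ (map_zero ε) (map_one ε)
  let φ := (Ring.inverse (th q E')).map ε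
  have v1 : θ * φ = 1 := by
    have h1 := congrArg (fun X => X.map ε) u1
    simp only [Matrix.map_mul] at h1
    rw [hone'] at h1
    have h2 : (th q E').map ε = θ := by rw [hθ, hετ]
    rw [h2] at h1
    exact h1
  have v2 : φ * θ = 1 := by
    have h1 := congrArg (fun X => X.map ε) u2
    simp only [Matrix.map_mul] at h1
    rw [hone'] at h1
    have h2 : (th q E').map ε = θ := by rw [hθ, hετ]
    rw [h2] at h1
    exact h1
  have v3 : e1 * θ = θ * e0 := by
    have h1 := congrArg (fun X => X.map ε) u3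
    simp only [Matrix.map_mul] at h1
    rw [hθ, hE0, hE1, hετ, hετ, hετ] at h1
    exact h1
  have hinv : Ring.inverse (th q E') = φ.map τ := by
    have h1 : φ.map τ * th q E' = 1 := by
      rw [hθ, ← Matrix.map_mul, v2, hone]
    calc Ring.inverse (th q E') = (φ.map τ * th q E') * Ring.inverse (th q E') := by
          rw [h1, one_mul]
      _ = φ.map τ := by rw [mul_assoc, u1, mul_one]
  have hD : (th q E').map DL = (θ.map (del f')).map τ := by
    rw [hθ]
    ext1 i j
    exact DL_jf f' (θ i j)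
  have hOM : OM q E' = τ (trace (e0 * φ * θ.map (del f'))) := by
    unfold OM
    rw [hE0, hinv, hD, ← Matrix.map_mul, ← Matrix.map_mul]
    exact (AddMonoidHom.map_trace τ.toAddMonoidHom _).symm
  have hγ1 : f' γ = 1 := hγ γ rfl
  have hrg : rg q E' g = Phi (ZMod (p ^ K)) k (trace e1) - Phi (ZMod (p ^ K)) k (trace e0) := by
    unfold rg
    rw [hOM]
    have h1 := tauL_jf f' γ hγ1 (trace (e0 * φ * θ.map (del f')))
    refine h1.trans ?_
    have h5 := trace_comm_of_tracial (tau (k := ZMod (p ^ K)) γ) (tau_mul_comm γ) (e0 * φ)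
      (θ.map (del f'))
    rw [h5, tau_trace_del f' γ k hk1 hk2]
    have h3 : θ * (e0 * φ) = e1 := by
      rw [← mul_assoc, ← v3, mul_assoc, v1, mul_one]
    have h4 : e0 * φ * θ = e0 := by
      rw [mul_assoc, v2, mul_one]
    rw [h3, h4]
  have hkc : ∀ x : G, k (x, q x) = h x := by
    intro x
    by_cases hx : IsConj x g
    · obtain ⟨w, hw⟩ := isConj_iff.1 hx.symm
      have h1 : ((x, q x) : G × Cy p) = (w, 1) * γ * (w, 1)⁻¹ := by
        apply Prod.ext
        · exact hw.symm
        · change q x = 1 * q g * 1⁻¹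
          rw [one_mul, inv_one, mul_one, ← hw, map_mul, map_mul, map_inv, mul_comm (q w) (q g),
            mul_assoc, mul_inv_cancel, mul_one]
      rw [h1, hk1, ← hw, hh1]
      rfl
    · rw [hh2 x hx]
      apply hk2
      intro hc
      apply hx
      obtain ⟨w, hw⟩ := isConj_iff.1 hc
      exact isConj_iff.2 ⟨w.1, congrArg Prod.fst hw⟩
  have hk0 : ∀ x : G, k (x, 1) = 0 := by
    intro x
    apply hk2
    intro hc
    apply hq
    obtain ⟨w, hw⟩ := isConj_iff.1 hc
    have h1 : w.2 * 1 * w.2⁻¹ = q g := congrArg Prod.snd hw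
    rw [← h1, mul_one, mul_inv_cancel]
  have hP0 : ∀ x : MonoidAlgebra (ZMod (p ^ K)) G,
      Phi (ZMod (p ^ K)) k (i0 (ZMod (p ^ K)) G p x) = 0 := by
    intro x
    induction x using MonoidAlgebra.induction_linear with
    | zero => simp
    | add a b ha hb => rw [map_add, map_add, ha, hb, add_zero]
    | single y a =>
      unfold i0
      rw [cgm_single, Phi_single]
      have h1 : k ((MonoidHom.inl G (Cy p)) y) = 0 := hk0 y
      rw [h1, Int.cast_zero, mul_zero]
  have hP1 : ∀ x : MonoidAlgebra (ZMod (p ^ K)) G,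
      Phi (ZMod (p ^ K)) k (i1 (ZMod (p ^ K)) q x) = Phi (ZMod (p ^ K)) h x := by
    intro x
    induction x using MonoidAlgebra.induction_linear with
    | zero => simp
    | add a b ha hb => rw [map_add, map_add, map_add, ha, hb]
    | single y a =>
      unfold i1
      rw [cgm_single, Phi_single, Phi_single]
      have h1 : k (((MonoidHom.id G).prod q) y) = h y := hkc y
      rw [h1]
      rfl
  have ht0 : trace e0 = i0 (ZMod (p ^ K)) G p (trace e) :=
    (AddMonoidHom.map_trace (i0 (ZMod (p ^ K)) G p).toAddMonoidHom e).symm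
  have ht1 : trace e1 = i1 (ZMod (p ^ K)) q (trace e) :=
    (AddMonoidHom.map_trace (i1 (ZMod (p ^ K)) q).toAddMonoidHom e).symm
  have ht : trace e = red (p ^ K) G (trace E) :=
    (AddMonoidHom.map_trace (red (p ^ K) G).toAddMonoidHom E).symm
  change rg q E' g = _
  rw [hrg, ht0, ht1, hP0, hP1, sub_zero, ht, Phi_red]

end Pool.Agent.SM3
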