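import Pool.Agent.SM3.St
import Pool.Agent.SM1.P_COL

/-!
# SM3, module FIN4: the theorem in degree `0`
-/

set_option autoImplicit false
set_option linter.unusedSectionVars false

open Matrix Pool.Agent.Lib25 Pool.Agent.KM Pool.Agent.SM1 Pool.Agent.SM2

noncomputable section

namespace Pool.Agent.SM3

universe u v w

/-- `ZW4` on a cofinal family of subgroups. -/
def LZ4 {G : Type u} [Group G] {Q : Type v} [Group Q] (π : G →* Q) (f : G →* Multiplicative ℤ) : Prop :=
  ∀ G0 : Subgroup G, G0.FG → ∃ G1 : Subgroup G, G0 ≤ G1 ∧ ∃ r : ℕ,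
    ZW4 (π.comp G1.subtype) (f.comp G1.subtype) r

namespace FIN4

theorem jf_nat {G : Type u} {H : Type v} [Group G] [Group H] (φ : H →* G) (f : G →* Multiplicative ℤ) :
    (jf ℤ f).comp (grm φ) = (mapL (grm φ)).comp (jf ℤ (f.comp φ)) := by
  apply RingHom.ext
  intro x
  rw [RingHom.comp_apply, RingHom.comp_apply]
  induction x using MonoidAlgebra.induction_linear with
  | zero => simp
  | add a b ha hb => rw [map_add, map_add, ha, hb, map_add, map_add]
  | single c r => rw [grm_single, jf_single, jf_single, mapL_single, grm_single]; rfl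

theorem ddf_nat {G : Type u} {H : Type u} [Group G] [Group H] (φ : H →* G) (f : G →* Multiplicative ℤ)
    (z : K0 (MonoidAlgebra ℤ H)) : ddf f (K0.map (grm φ) z) = Kg φ (ddf (f.comp φ) z) := by
  change KNegOne.mk (K0.map (jf ℤ f) (K0.map (grm φ) z)) =
    Kg φ (KNegOne.mk (K0.map (jf ℤ (f.comp φ)) z))
  rw [KNegOne.map_mk, K0.map_map, K0.map_map, jf_nat]

/-- `TF` for the corestriction. -/
theorem tf_range {G : Type u} [Group G] {Q : Type v} [Group Q] (π : G →* Q)
    (f : G →* Multiplicative ℤ) (h : π.range) : h ∈ TF π.rangeRestrict f ↔ (h : Q) ∈ TF π f := by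
  constructor
  · rintro ⟨g, c, hg, hc, hfc, hgh⟩
    exact ⟨g, c, hg, hc, hfc, congrArg Subtype.val hgh⟩
  · rintro ⟨g, c, hg, hc, hfc, hgh⟩
    exact ⟨g, c, hg, hc, hfc, Subtype.ext hgh⟩

/-- `ZW4` for the corestriction. -/
theorem zw4_range {G : Type u} [Group G] {Q : Type v} [Group Q] (π : G →* Q)
    (f : G →* Multiplicative ℤ) (r : ℕ) (h : ZW4 π f r) : ZW4 π.rangeRestrict f r := by
  intro g hg
  rcases h g (fun h1 => hg ((tf_range π f _).2 h1)) with ⟨M, hM, hMc, hC⟩ | h1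
  · left
    refine ⟨M, hM, ?_, hC⟩
    have h1 : orderOf (π.rangeRestrict g) = orderOf (π g) :=
      (Subgroup.orderOf_coe (π.rangeRestrict g)).symm
    rw [h1]
    exact hMc
  · exact Or.inr h1

/-- `finF` of the corestriction. -/
theorem finF_range {G : Type u} [Group G] {Q : Type v} [Group Q] (π : G →* Q)
    (f : G →* Multiplicative ℤ) : (finF π.rangeRestrict f).map (Kg π.range.subtype) ≤ finF π f := by
  unfold finF
  rw [AddSubgroup.map_iSup]
  refine iSup_le fun H => ?_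
  refine le_trans ?_ (le_iSup _ H)
  rintro _ ⟨_, ⟨y, rfl⟩, rfl⟩
  refine ⟨y, ?_⟩
  rw [Kg_comp]
  rfl

/-- `finF` of a subgroup. -/
theorem finF_sub {G : Type u} [Group G] {Q : Type v} [Group Q] (π : G →* Q)
    (f : G →* Multiplicative ℤ) (G1 : Subgroup G) :
    finF (π.comp G1.subtype) (f.comp G1.subtype) ≤ finF π f := by
  unfold finF
  refine iSup_le ?_
  rintro ⟨H, hH, c, hc, hfc⟩
  have hfin : Finite (H.map G1.subtype) := by
    have : Finite H := hH
    exact Set.Finite.to_subtype (Set.Finite.image _ (Set.toFinite (H : Set G1)))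
  have hc' : ∀ x ∈ H.map G1.subtype, (c : G) * x = x * c := by
    rintro _ ⟨x, hx, rfl⟩
    exact congrArg Subtype.val (hc x hx)
  refine le_trans ?_ (le_iSup _ ⟨H.map G1.subtype, hfin, (c : G), hc', hfc⟩)
  rintro _ ⟨y, rfl⟩
  refine ⟨Kg ((G1.subtype.comp H.subtype).codRestrict (H.map G1.subtype)
    (fun x => ⟨(x : G1), x.2, rfl⟩)) y, ?_⟩
  rw [Kg_comp]
  rfl

end FIN4

open FIN4 in
theorem t_FIN4 (hFNS : S_FNS4.{u, v}) (hCOL : S_COL0.{u}) {G : Type u} [Group G] {Q : Type v} [Group Q]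
    [Finite Q] (π : G →* Q) (f : G →* Multiplicative ℤ) (h : LZ4 π f) (z : K0 (MonoidAlgebra ℤ G)) :
    ∃ n : ℕ, 0 < n ∧ n • Kg π (ddf f z) ∈ finF π f := by
  obtain ⟨G0, hG0, h0⟩ := hCOL z
  obtain ⟨G1, hle, r, hZ⟩ := h G0 hG0
  obtain ⟨z1, hz1⟩ := h0 G1 hle
  obtain ⟨n, hn, hs⟩ := hFNS (π.comp G1.subtype).rangeRestrict
    (π.comp G1.subtype).rangeRestrict_surjective (f.comp G1.subtype) r (zw4_range _ _ r hZ) z1
  refine ⟨n, hn, ?_⟩
  have h1 := finF_sub π f G1 (finF_range (π.comp G1.subtype) (f.comp G1.subtype) ⟨_, hs, rfl⟩)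
  have h2 : Kg (π.comp G1.subtype).range.subtype
      (n • Kg (π.comp G1.subtype).rangeRestrict (ddf (f.comp G1.subtype) z1)) =
      n • Kg π (ddf f z) := by
    rw [map_nsmul, Kg_comp, ← hz1, ddf_nat, Kg_comp]
    rfl
  rw [h2] at h1
  exact h1

end Pool.Agent.SM3
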