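import Pool.Agent.SM3.Defs

/-!
# MP_e40716_gt (T*): degree `0` seen in `Q × ℤ`: statements

Module `X` proves `theorem t_X (h : S_Y) ... : S_X` in `Pool/Agent/SM3/P_X.lean`, namespace
`Pool.Agent.SM3`; the hypotheses are the statements named in the doc string, nothing else. Auxiliary
lemmas in the namespace `Pool.Agent.SM3.X`. Definitions: `SM3/Defs.lean` (`jf`, `jf_single`, `ddf`),
`SM1/Defs.lean` (`LG`, `Cy`, `i0`, `i1`, `E0`, `E1`, `th`, `OM`, `rg`, `rd`, `cgm`), `KM/ADefs.lean`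
(`blow`, `lau`, `ngo_congr`), `Lib_helper25/Traces.lean` (`tau`, `tauL`, `DL`, `coeffZero`).
-/

set_option autoImplicit false
set_option linter.unusedSectionVars false

open Matrix Pool.Agent.Lib25 Pool.Agent.KM Pool.Agent.SM1 Pool.Agent.SM2
open Pool.Agent.SUR (ZM)

noncomputable section

namespace Pool.Agent.SM3

universe u v w

/-- FCZ (180 lines; hypothesis `S_UNI.{u, w}` of SM1/St.lean). The invariant of `E.map (jf f)` at the class of an
element `g` on whose centraliser `f` vanishes.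

PROOF. `F` = the support of the coefficients of `tr E`, and for `x ~ g` let `Fx = f y` where `x = y g y⁻¹` (it does
not depend on `y` because `f` vanishes on the centraliser); `a = ∑_{x ∈ F, x ~ g} (tr E)(x) Fx`.
Let `A = ZMod (p ^ K)`, `P = G × C_p`, `γ = (g, q g)`, `f' = f ∘ fst` on `P`, `τ = jf A f' : A[P] → LG A P`,
`δ : A[P] → A[P]` additive, `δ (single y b) = single y (f'(y) b)`, `ε : LG A P → A[P]` the ring homomorphism
`t ↦ 1` (`LaurentPolynomial.eval₂`-like or `AddMonoidAlgebra.liftNCRingHom`; `ε ∘ τ = id`).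
(1) with `E' = rd (p^K) (E.map (jf ℤ f)) = (E.map (red ..)).map (jf A f)`: `E0 p E' = e0.map τ`,
`E1 q E' = e1.map τ`, where `e0`, `e1` over `A[P]` are the images of `E` under `single x b ↦ single (x, 1) b`,
`single (x, q x) b` (check on singles: `i0`, `i1` keep the degree). So `θ = th q E' = θ'.map τ` with
`θ' = e1 e0 + (1 - e1)(1 - e0) = θ.map ε`. (2) `S_UNI`: `θ` is a unit and `θ E0 θ⁻¹ = E1`; apply `ε`: `θ'` is a
unit, `θ' e0 θ'⁻¹ = e1`, and `Ring.inverse θ = (θ'⁻¹).map τ`. (3) `DL (τ y) = τ (δ y)` (on singles), so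
`OM q E' = τ (tr (e0 θ'⁻¹ (θ'.map δ)))`; for `z ∈ A[P]`: `tauL γ (τ z) = tau γ z` because
`f' γ = f g = 0` and `f'` is constant on the class of `γ`. (4) `Φ : A[P] → A` additive,
`Φ (single x b) = b * f(y)` if `x = y γ y⁻¹`, `0` if `x` is not conjugate to `γ`. For group elements
`Φ (x y) - Φ (y x) = f'(x)` if `x y ~ γ`, else `0` (`y x = x⁻¹ (x y) x`), so
`tau γ (δ x * y) = Φ (x y) - Φ (y x)` for all `x, y ∈ A[P]` and for matrices
`tau γ (tr (X.map δ * Y)) = Φ (tr (X Y)) - Φ (tr (Y X))`. (5) So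
`rg = tau γ (tr (e0 θ'⁻¹ θ'.map δ)) = tau γ (tr (θ'.map δ * (e0 θ'⁻¹)))
= Φ (tr (θ' e0 θ'⁻¹)) - Φ (tr (e0 θ'⁻¹ θ')) = Φ (tr e1) - Φ (tr e0)`, `Φ (tr e0) = 0` because `q g ≠ 1`, and
`Φ (tr e1) = a` because `(x, q x) ~ (g, q g)` iff `x ~ g`. -/
def S_FCZ : Prop := ∀ {G : Type u} [Group G] (f : G →* Multiplicative ℤ) {ι : Type w} [Fintype ι]
  [DecidableEq ι] (E : Matrix ι ι (MonoidAlgebra ℤ G)), E * E = E →
  ∃ F : Finset G, ∀ g : G, (∀ c : G, c * g = g * c → f c = 1) →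
  ∃ a : ℤ, ((∀ x ∈ F, ¬ IsConj x g) → a = 0) ∧
    ∀ {p K : ℕ}, p.Prime → ∀ q : G →* Cy p, q g ≠ 1 →
      rg q (rd (p ^ K) (E.map (jf ℤ f))) g = (a : ZMod (p ^ K))

/-- RSF (120 lines; no hypotheses). Restriction of `E.map (jf f)`.

PROOF. `U` = the diagonal matrix with the entries `t ^ (f (s i.2))` at `i ∈ ι × k` (`LaurentPolynomial.T`),
invertible, its entries are central. `blow (lau θ) (E.map (jf f)) = U * (blow θ E).map (jf (f ∘ φ)) * U⁻¹`: at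
the entry `(i, a), (j, b)`, both sides are additive in `x = E i j`; for `x = single y c`:
`lau θ (jf f x) a b = single (f y) (θ x a b)` (`lau_single`), and `θ x a b = single h c` if
`y = s a * φ h * (s b)⁻¹` (`IsRes`; `h` is unique by `Tr`), else `0`; `f y = f (s a) + f (φ h) - f (s b)`.
So the two idempotent matrices are equivalent (`MvN`: `e = (e U) (U⁻¹ e)` up to order), `ngo_congr`. -/
def S_RSF : Prop := ∀ {G : Type u} [Group G] {H : Type u} [Group H] {k : Type v} [Fintype k]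
  [DecidableEq k] (φ : H →* G) (s : k → G), Pool.Agent.SM1.Tr φ s →
  ∀ (θ : MonoidAlgebra ℤ G →+* Matrix k k (MonoidAlgebra ℤ H)), IsRes φ s θ →
  ∀ (f : G →* Multiplicative ℤ) {ι : Type w} [Fintype ι] [DecidableEq ι]
    (E : Matrix ι ι (MonoidAlgebra ℤ G))
    (he : blow (lau θ) (E.map (jf ℤ f)) * blow (lau θ) (E.map (jf ℤ f)) =
      blow (lau θ) (E.map (jf ℤ f)))
    (hf : (blow θ E).map (jf ℤ (f.comp φ)) * (blow θ E).map (jf ℤ (f.comp φ)) =
      (blow θ E).map (jf ℤ (f.comp φ))),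
  ngo (blow (lau θ) (E.map (jf ℤ f))) he = ngo ((blow θ E).map (jf ℤ (f.comp φ))) hf

/-- COL0 (60 lines; no hypotheses; ADAPTATION of `t_COL`, SM1/P_COL.lean). Every element of `K₀(ℤ[G])` comes from a
finitely generated subgroup. -/
def S_COL0 : Prop := ∀ {G : Type u} [Group G] (z : K0 (MonoidAlgebra ℤ G)),
  ∃ G0 : Subgroup G, G0.FG ∧ ∀ G1 : Subgroup G, G0 ≤ G1 →
    ∃ z1 : K0 (MonoidAlgebra ℤ G1), K0.map (grm G1.subtype) z1 = z

/-- SUM4 (ADAPTATION of `t_SUM2`; architect; hypotheses those of `t_SUM2` and `S_FCZ.{u, w}`). -/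
def S_SUM4 : Prop := ∀ {G : Type u} [Group G] (N : ℕ), 1 < N → ∀ (φ : G →* Cy N)
  (f : G →* Multiplicative ℤ) (r : ℕ),
  (∀ g : G, φ g = gn N → (∃ M : ℕ, 0 < M ∧ M.Coprime N ∧ CG M r g) ∨
    ∀ c : G, c * g = g * c → f c = 1) →
  ∀ {ι : Type w} [Fintype ι] [DecidableEq ι] (E : Matrix ι ι (MonoidAlgebra ℤ G)), E * E = E →
  ∃ (D : ℕ) (a : ℤ), 0 < D ∧ ∀ (p K : ℕ) (hp : p.Prime) (hpN : p ∣ N),
    (D : ZMod (p ^ K)) * rg (cN N p hpN) (rd (p ^ K) (psh φ (E.map (jf ℤ f)))) (gn N) =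
      (a : ZMod (p ^ K))

/-- NUM4 (ADAPTATION of `t_NUM2`; architect). -/
def S_NUM4 : Prop := ∀ {G : Type u} [Group G] {Q : Type v} [Group Q] [Finite Q] (π : G →* Q),
  Function.Surjective π → ∀ (f : G →* Multiplicative ℤ) (r : ℕ), ZW4 π f r →
  ∀ (z : K0 (MonoidAlgebra ℤ G)) (X : K0 (LG ℤ Q)) (m : ℕ),
  KNegOne.mk X = m • KNegOne.mk (K0.map (mapL (grm π)) (K0.map (jf ℤ f) z)) →
  ∀ w : ∀ (p : ℕ) [Fact p.Prime], Q → ℚ_[p], Triv X w →
  ∃ y : Q → ℚ, ∀ (p : ℕ) [Fact p.Prime] (h : Q), p ∣ orderOf h → h ∉ TF π f →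
    w p h = (y h : ℚ_[p])

/-- FNS4 (ADAPTATION of `t_FNS3`; architect). -/
def S_FNS4 : Prop := ∀ {G : Type u} [Group G] {Q : Type v} [Group Q] [Finite Q] (π : G →* Q),
  Function.Surjective π → ∀ (f : G →* Multiplicative ℤ) (r : ℕ), ZW4 π f r →
  ∀ z : K0 (MonoidAlgebra ℤ G), ∃ n : ℕ, 0 < n ∧ n • Kg π (ddf f z) ∈ finF π f

end Pool.Agent.SM3
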